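import Pool.Agent.helper91.SI.Spec4

/-!
# Row si:I2W
-/

set_option autoImplicit false

namespace Pool.Agent.helper91.SI

open Pool.Agent.helper20.IG (IsIndepDom IsISet iGraph)

theorem I2W_ne2 : ∀ t : ZMod 6, t + 1 + 1 ≠ t := by decide

theorem I2W_ne2' : ∀ t : ZMod 6, t ≠ t + 2 := by decide

theorem I2W_ne3 : ∀ t : ZMod 6, t + 1 ≠ t + 3 := by decide

theorem I2W_e2 : ∀ t : ZMod 6, t + 1 + 1 = t + 2 := by decide

theorem I2W_e3 : ∀ t : ZMod 6, t + 2 + 1 = t + 3 := by decide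

theorem I2W_one {V : Type} [DecidableEq V] (hSAM : SAM_stmt) (G : SimpleGraph V)
    (S : ZMod 6 → Finset V) (s v : ZMod 6 → V) (hT : NoTri G) (hW : W6 G S s v) (t : ZMod 6) :
    s (t + 1) ≠ v t := by
  obtain ⟨hI, hinj, hst⟩ := hW
  intro h
  obtain ⟨h1, h2, h3, h4⟩ := hst t
  obtain ⟨g1, g2, g3, g4⟩ := hst (t + 1)
  have hne : s t ≠ v t := G.ne_of_adj h3
  have hback : insert (s t) ((S (t + 1)).erase (v t)) = S t := by
    rw [h4, Finset.erase_insert (fun h' => h2 (Finset.mem_of_mem_erase h')), Finset.insert_erase h1]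
  have hs1 : Slide G (S (t + 1)) (v t) (s t) := by
    refine ⟨hI _, ?_, ?_, h3.symm, ?_⟩
    · rw [h4]; exact Finset.mem_insert_self _ _
    · rw [h4, Finset.mem_insert, Finset.mem_erase]
      rintro (h' | h')
      · exact hne h'
      · exact h'.1 rfl
    · rw [hback]; exact hI t
  have hs2 : Slide G (S (t + 1)) (v t) (v (t + 1)) := by
    rw [← h]
    refine ⟨hI _, g1, g2, g3, ?_⟩
    rw [← g4]
    exact hI _
  have hv := hSAM V G (S (t + 1)) (v t) (v (t + 1)) (s t) hT hs2 hs1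
  rw [h, hv, hback] at g4
  exact I2W_ne2 t (hinj g4)

theorem I2W (hSAM : SAM_stmt) (hIAD : IAD_stmt) : I2W_stmt := by
  intro V _ G S s v hT hC4 hW
  have h0 := fun t => I2W_one hSAM G S s v hT hW t
  refine ⟨h0, ?_⟩
  rintro t ⟨ha, hb⟩
  obtain ⟨hI, hinj, hst⟩ := hW
  obtain ⟨p1, p2, p3, p4⟩ := hst t
  obtain ⟨q1, q2, q3, q4⟩ := hst (t + 1)
  obtain ⟨r1, r2, r3, r4⟩ := hst (t + 2)
  rw [I2W_e2] at q4
  rw [I2W_e3, ha, hb] at r4
  rw [ha] at r1
  have hx1 := h0 t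
  generalize hx : s (t + 1) = x at *
  generalize hy : v (t + 1) = y at *
  have hyS : y ∈ S (t + 2) := by rw [q4]; exact Finset.mem_insert_self _ _
  have hys : y ≠ s t := by
    intro h
    exact (hI (t + 2)).1.1 _ (h ▸ hyS) _ r1 p3
  have hvt : v t ∈ S (t + 1) := by rw [p4]; exact Finset.mem_insert_self _ _
  have hyv : y ≠ v t := fun h => q2 (h ▸ hvt)
  have hxS : x ≠ s t ∧ x ∈ S t := by
    rw [p4, Finset.mem_insert, Finset.mem_erase] at q1
    exact q1.resolve_left hx1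
  have hyn : y ∉ S t := by
    intro h
    apply q2
    rw [p4]
    exact Finset.mem_insert_of_mem (Finset.mem_erase.2 ⟨hys, h⟩)
  have hsv : s t ≠ v t := G.ne_of_adj p3
  have key : S (t + 3) = insert y ((S t).erase x) := by
    rw [r4, q4, p4]
    ext w
    simp only [Finset.mem_insert, Finset.mem_erase]
    by_cases w1 : w = s t
    · subst w1
      simp [hxS.1.symm, p1]
    · by_cases w2 : w = v t
      · subst w2
        simp [hyv.symm, p2, w1]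
      · simp [w1, w2]
  have e1 : (iGraph G).Adj ⟨S t, hI t⟩ ⟨S (t + 1), hI (t + 1)⟩ :=
    (hIAD V G _ _).2 ⟨s t, v t, ⟨hI t, p1, p2, p3, by rw [← p4]; exact hI _⟩, p4⟩
  have e2 : (iGraph G).Adj ⟨S (t + 1), hI (t + 1)⟩ ⟨S (t + 2), hI (t + 2)⟩ :=
    (hIAD V G _ _).2 ⟨x, y, ⟨hI _, q1, q2, q3, by rw [← q4]; exact hI _⟩, q4⟩
  have e3 : (iGraph G).Adj ⟨S (t + 2), hI (t + 2)⟩ ⟨S (t + 3), hI (t + 3)⟩ :=
    (hIAD V G _ _).2 ⟨v t, s t, ⟨hI _, r1, hb ▸ r2, p3.symm, by rw [← r4]; exact hI _⟩, r4⟩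
  have e4 : (iGraph G).Adj ⟨S t, hI t⟩ ⟨S (t + 3), hI (t + 3)⟩ :=
    (hIAD V G _ _).2 ⟨x, y, ⟨hI _, hxS.2, hyn, q3, by rw [← key]; exact hI _⟩, key⟩
  refine hC4 _ _ _ _ e1 e2 e3 e4.symm ?_ ?_
  · intro h
    exact I2W_ne2' t (hinj (congrArg Subtype.val h))
  · intro h
    exact I2W_ne3 t (hinj (congrArg Subtype.val h))

end Pool.Agent.helper91.SI

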