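import Pool.Agent.helper91.SI.Spec

/-!
# Row si:PTT
-/

set_option autoImplicit false

namespace Pool.Agent.helper91.SI

open Pool.Agent.helper20.IG (IsIndepDom IsISet iGraph)

theorem PTT : PTT_stmt := by
  intro n
  constructor
  · rintro ⟨x, a, b, c, h1, h2, h3, hab, hac, hbc⟩
    rw [SimpleGraph.pathGraph_adj] at h1 h2 h3
    have e1 : a.val ≠ b.val := fun h => hab (Fin.ext h)
    have e2 : a.val ≠ c.val := fun h => hac (Fin.ext h)
    have e3 : b.val ≠ c.val := fun h => hbc (Fin.ext h)
    omega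
  · intro a b c d h1 h2 h3 h4 hac hbd
    rw [SimpleGraph.pathGraph_adj] at h1 h2 h3 h4
    have e1 : a.val ≠ c.val := fun h => hac (Fin.ext h)
    have e2 : b.val ≠ d.val := fun h => hbd (Fin.ext h)
    omega

end Pool.Agent.helper91.SI
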